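import Mathlib
import Pool.Agent.MP_f04e08_an.Final

set_option autoImplicit false

open Pool.Agent.MP_f04e08_an

namespace Pool.Agent.Results.MP_f04e08_an.UKBNotPB

/-- There is a multiplier of the Dirichlet space whose multiplication operator is uniformly
Kreiss bounded and not power bounded. The Dirichlet space is identified isometrically with `ℓ²`
through `dirichletFun`, and `T` is the multiplication operator read in `ℓ²`. -/
theorem result :
    ∃ (φ : ℂ → ℂ) (T : Op Ell2),
      IsMultiplicationBy dirichletFun φ T ∧ IsUniformlyKreissBounded T ∧ ¬ IsPowerBounded T := by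
  obtain ⟨T, h1, h2, h3⟩ := reduction phi differentiableOn_phi
    (fun z hz => norm_phi_le (mem_ball_zero_iff.mp hz)) (1600 * (19 * 76800) ^ 2) (by positivity)
    ukb_integral energy_unbounded
  exact ⟨phi, T, fun x z hz => h1 x z (mem_ball_zero_iff.mpr hz), h2, h3⟩

end Pool.Agent.Results.MP_f04e08_an.UKBNotPB
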